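import Pool.Agent.V1153.GH.Cst
import Pool.Agent.Run7.h302.PG.Pts4

/-!
# Curves whose coordinates are polynomials of bounded degree in functions with Hadamard gaps, in
hypersurfaces without rational curves of small degree
-/

set_option autoImplicit false

namespace Run7.h302.GH

open MvPolynomial Set Filter Topology
open Pool.Agent.V1153.UG (GmBdd)
open Pool.Agent.V1153.GH (mem_hyp)
open Run7.h302.PG (eval_aeval)
open Pool.Agent.TH600.LC (HadamardGaps DAlg tr tr_apply tr_diff tr_dAlg tr_gaps structure_coef ent_mul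
  ent_mul' ent_zero_of_near differentiable_eval)

variable {n m : ℕ}

/-- the value at `v` of the polynomial with the coefficients `c α`, `α ∈ T` -/
noncomputable def W (T : Finset (Fin m → ℕ)) (c : (Fin m → ℕ) → ℂ) (v : Fin m → ℂ) : ℂ :=
  ∑ α ∈ T, c α * ∏ i, v i ^ α i

/-- the restriction to a line -/
noncomputable def crv (T : Finset (Fin m → ℕ)) (c : (Fin m → ℕ) → ℂ) (A B : Fin m → ℂ) :
    Polynomial ℂ :=
  ∑ α ∈ T, Polynomial.C (c α) *
    ∏ i, (Polynomial.C (A i) + Polynomial.C (B i) * Polynomial.X) ^ α i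

theorem crv_eval (T : Finset (Fin m → ℕ)) (c : (Fin m → ℕ) → ℂ) (A B : Fin m → ℂ) (t : ℂ) :
    (crv T c A B).eval t = W T c (fun i => A i + B i * t) := by
  unfold crv W
  rw [Polynomial.eval_finsetSum]
  refine Finset.sum_congr rfl fun α _ => ?_
  rw [Polynomial.eval_mul, Polynomial.eval_C, Polynomial.eval_prod]
  congr 1
  refine Finset.prod_congr rfl fun i _ => ?_
  simp

theorem crv_deg {e : ℕ} {T : Finset (Fin m → ℕ)} (hT : ∀ α ∈ T, ∑ i, α i ≤ e)
    (c : (Fin m → ℕ) → ℂ) (A B : Fin m → ℂ) : (crv T c A B).natDegree ≤ e := by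
  unfold crv
  refine Polynomial.natDegree_sum_le_of_forall_le _ _ fun α hα => ?_
  refine (Polynomial.natDegree_C_mul_le _ _).trans ?_
  refine (Polynomial.natDegree_prod_le _ _).trans ?_
  refine le_trans (Finset.sum_le_sum fun i _ => ?_) (hT α hα)
  refine Polynomial.natDegree_pow_le.trans ?_
  have h1 : (Polynomial.C (A i) + Polynomial.C (B i) * Polynomial.X).natDegree ≤ 1 := by
    refine (Polynomial.natDegree_add_le _ _).trans (max_le ?_ ?_)
    · rw [Polynomial.natDegree_C]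
      exact zero_le_one
    · exact (Polynomial.natDegree_C_mul_le _ _).trans Polynomial.natDegree_X_le
  calc α i * _ ≤ α i * 1 := Nat.mul_le_mul_left _ h1
    _ = α i := mul_one _

theorem eval_bind {σ τ : Type} (P : σ → MvPolynomial τ ℂ) (G : MvPolynomial σ ℂ) (v : τ → ℂ) :
    eval v (bind₁ P G) = eval (fun j => eval v (P j)) G := by
  rw [MvPolynomial.eval, MvPolynomial.eval₂Hom_bind₁]
  rfl

/-- **Structure of relations.** -/
theorem subst {T : Finset (Fin m → ℕ)} {c : Fin n → (Fin m → ℕ) → ℂ → ℂ} {g : Fin m → ℂ → ℂ}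
    (hg : ∀ i, HadamardGaps 0 (g i))
    (hc : ∀ j, ∀ α ∈ T, Differentiable ℂ (c j α) ∧ DAlg (c j α)) :
    ∃ (a : Polynomial ℂ) (I : Finset (Fin m)) (p : Fin m → Polynomial ℂ)
      (b : Fin m → Fin m → Polynomial ℂ), a ≠ 0 ∧
      (∀ z i, a.eval z * g i z = (p i).eval z + ∑ l ∈ I, (b i l).eval z * g l z) ∧
      ∀ G : MvPolynomial (Fin n) ℂ,
        (∀ z, eval (fun j => W T (fun α => c j α z) (fun i => g i z)) G = 0) →
        ∀ (z : ℂ) (x : Fin m → ℂ), a.eval z ≠ 0 →
          eval (fun j => W T (fun α => c j α z)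
            (fun i => ((p i).eval z + ∑ l ∈ I, (b i l).eval z * x l) / a.eval z)) G = 0 := by
  classical
  obtain ⟨N, ⟨E⟩⟩ := Finite.exists_equiv_fin (Fin n × {α // α ∈ T})
  obtain ⟨a, I, p, b, ha, hrel, hz⟩ := structure_coef
    (y := fun z i => c (E.symm i).1 (E.symm i).2.1 z) (g := fun z i => g i z)
    (fun i => (hc _ _ (E.symm i).2.2).1) (fun i => (hc _ _ (E.symm i).2.2).2) hg
  refine ⟨a, I, p, b, ha, hrel, fun G hG z x haz => ?_⟩
  obtain ⟨P, hP0⟩ : ∃ P : Fin n → MvPolynomial (Fin N ⊕ Fin m) ℂ,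
      ∀ (j : Fin n) (u : Fin N → ℂ) (v : Fin m → ℂ), eval (Sum.elim u v) (P j) =
        ∑ α : {α // α ∈ T}, u (E (j, α)) * ∏ i, v i ^ α.1 i :=
    ⟨fun j => ∑ α : {α // α ∈ T}, X (Sum.inl (E (j, α))) * ∏ i, X (Sum.inr i) ^ α.1 i,
      fun j u v => by
        simp only [map_sum, map_mul, map_prod, eval_X, Sum.elim_inl, map_pow, Sum.elim_inr]⟩
  have hP : ∀ (j : Fin n) (z : ℂ) (v : Fin m → ℂ),
      eval (Sum.elim (fun i => c (E.symm i).1 (E.symm i).2.1 z) v) (P j) =
        W T (fun α => c j α z) v := by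
    intro j z v
    rw [hP0, W, ← Finset.sum_coe_sort T (fun α => c j α z * ∏ i, v i ^ α i)]
    refine Finset.sum_congr rfl fun α _ => ?_
    rw [Equiv.symm_apply_apply]
  have hB : ∀ (z : ℂ) (v : Fin m → ℂ),
      eval (Sum.elim (fun i => c (E.symm i).1 (E.symm i).2.1 z) v) (bind₁ P G) =
        eval (fun j => W T (fun α => c j α z) v) G := by
    intro z v
    rw [eval_bind]
    congr 2
    funext j
    exact hP j z v
  have h2 := hz (bind₁ P G) (fun w => by rw [hB]; exact hG w) z x haz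
  rwa [hB] at h2

/-- Points of a family without curves. -/
theorem par_all {e : ℕ} {F : MvPolynomial (Fin (n + 1)) ℂ}
    (hno : ∀ P, ¬ GmBdd (Ideal.span {F}) 1 e P) {T : Finset (Fin m → ℕ)}
    (hT : ∀ α ∈ T, ∑ i, α i ≤ e) (c : Fin (n + 1) → (Fin m → ℕ) → ℂ) (A B : Fin m → ℂ)
    (hF : ∀ t : ℂ, eval (fun j => W T (c j) (fun i => A i + B i * t)) F = 0) (t0 t1 : ℂ)
    (j k : Fin (n + 1)) :
    W T (c j) (fun i => A i + B i * t0) * W T (c k) (fun i => A i + B i * t1) =
      W T (c k) (fun i => A i + B i * t0) * W T (c j) (fun i => A i + B i * t1) := by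
  by_contra hne
  refine hno (fun j => crv T (c j) A B) ⟨fun j => crv_deg hT _ _ _, fun G hG _ => ?_,
    ⟨1, 0, one_ne_zero, ?_⟩, ⟨t0, t1, j, k, ?_⟩⟩
  · refine Polynomial.funext fun t => ?_
    rw [eval_aeval, Polynomial.eval_zero]
    refine mem_hyp ?_ G hG
    simp only [crv_eval]
    exact hF t
  · simp
  · simp only [crv_eval]
    exact hne

end Run7.h302.GH
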