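import Pool.Agent.Run7.h302.GH.Main
import Pool.Agent.V1153.UG.UnfC

/-!
# Independent gap functions; curves
-/

set_option autoImplicit false

namespace Run7.h302.GH

open MvPolynomial Set Filter Topology
open Pool.Agent.V1153.UG
open Pool.Agent.V1153.GH (mem_hyp prop_of degLe_hyp)
open Pool.Agent.TH600.LC (HadamardGaps DAlg ent_mul ent_mul' ent_zero_of_near differentiable_eval)
open Run7.h302.PG (smul_form)

variable {n m : ℕ}

/-- `1, g_1, ..., g_m` satisfy no linear relation with polynomial coefficients that involves some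
`g_i` -/
def Indep (g : Fin m → ℂ → ℂ) : Prop :=
  ∀ (p : Polynomial ℂ) (q : Fin m → Polynomial ℂ),
    (∀ z, p.eval z + ∑ i, (q i).eval z * g i z = 0) → ∀ i, q i = 0

/-- For independent gap functions all parameters are free. -/
theorem indep_par {e : ℕ} {F : MvPolynomial (Fin (n + 1)) ℂ}
    (hno : ∀ P, ¬ GmBdd (Ideal.span {F}) 1 e P) {z₀ : ℂ} {T : Finset (Fin m → ℕ)}
    {c : Fin (n + 1) → (Fin m → ℕ) → ℂ → ℂ} {g : Fin m → ℂ → ℂ} (hD : GapData e z₀ T c g)
    (hg : Indep g) (hF : ∀ z, eval (H T c g z) F = 0) (z : ℂ) (x : Fin m → ℂ)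
    (j k : Fin (n + 1)) :
    W T (fun α => c j α z) x * H T c g z k = W T (fun α => c k α z) x * H T c g z j := by
  classical
  obtain ⟨a, I, p, b, ha, hrel, hz⟩ := core hno hD hF
  have hq : ∀ i l, (if l = i then a else 0) - (if l ∈ I then b i l else 0) = 0 := by
    intro i
    refine hg (-(p i)) (fun l => (if l = i then a else 0) - (if l ∈ I then b i l else 0))
      fun z => ?_
    have h1 : ∑ l, ((if l = i then a else 0) - (if l ∈ I then b i l else 0)).eval z * g l z =
        a.eval z * g i z - ∑ l ∈ I, (b i l).eval z * g l z := by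
      simp only [Polynomial.eval_sub, sub_mul, Finset.sum_sub_distrib]
      congr 1
      · rw [Finset.sum_eq_single i]
        · rw [if_pos rfl]
        · intro l _ hl
          rw [if_neg hl, Polynomial.eval_zero, zero_mul]
        · intro hi
          exact absurd (Finset.mem_univ i) hi
      · rw [← Finset.sum_subset (Finset.subset_univ I)]
        · exact Finset.sum_congr rfl fun l hl => by rw [if_pos hl]
        · intro l _ hl
          rw [if_neg hl, Polynomial.eval_zero, zero_mul]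
    rw [h1, Polynomial.eval_neg, hrel]
    ring
  have hI : ∀ i, i ∈ I ∧ b i i = a := by
    intro i
    have h1 := hq i i
    rw [if_pos rfl] at h1
    by_cases hi : i ∈ I
    · rw [if_pos hi] at h1
      exact ⟨hi, (sub_eq_zero.1 h1).symm⟩
    · rw [if_neg hi, sub_zero] at h1
      exact absurd h1 ha
  have hb : ∀ i l, l ≠ i → b i l = 0 := by
    intro i l hl
    have h1 := hq i l
    rw [if_neg hl, if_pos (hI l).1, zero_sub, neg_eq_zero] at h1
    exact h1
  have hsum : ∀ (w : ℂ) (i : Fin m) (x : Fin m → ℂ),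
      ∑ l ∈ I, (b i l).eval w * x l = a.eval w * x i := by
    intro w i x
    rw [Finset.sum_eq_single i]
    · rw [(hI i).2]
    · intro l _ hl
      rw [hb i l hl, Polynomial.eval_zero, zero_mul]
    · intro hi
      exact absurd (hI i).1 hi
  have hp : ∀ w i, (p i).eval w = 0 := by
    intro w i
    have h1 := hrel w i
    rw [hsum] at h1
    linear_combination -h1
  have hdH : ∀ j, Differentiable ℂ fun z => H T c g z j := fun j =>
    diff_W (fun α hα => (hD.coef j α hα).1) (fun i => (hD.gap i).1)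
  have hdW : ∀ j, Differentiable ℂ fun z => W T (fun α => c j α z) x := fun j =>
    diff_W (v := fun i _ => x i) (fun α hα => (hD.coef j α hα).1)
      (fun i => differentiable_const _)
  have h1 := ent_mul' (F := fun z => W T (fun α => c j α z) x * H T c g z k -
      W T (fun α => c k α z) x * H T c g z j) a.differentiable
    (((hdW j).mul (hdH k)).sub ((hdW k).mul (hdH j))) (by
      by_contra h1
      push Not at h1
      exact ha (Polynomial.funext fun w => by rw [h1, Polynomial.eval_zero])) (fun w hw => by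
      have h2 := hz w x j k hw
      have h3 : (fun i => ((p i).eval w + ∑ l ∈ I, (b i l).eval w * x l) / a.eval w) = x := by
        funext i
        rw [hp, hsum, zero_add, mul_div_cancel_left₀ _ hw]
      rw [h3] at h2
      exact sub_eq_zero.2 h2) z
  exact sub_eq_zero.1 h1

/-- proportional vectors -/
theorem exists_smul {f h : Fin (n + 1) → ℂ} (hf : f ≠ 0) (hp : ∀ j k, f j * h k = f k * h j) :
    ∃ μ : ℂ, ∀ j, h j = μ * f j := by
  obtain ⟨k, hk⟩ := Function.ne_iff.1 hf
  have hk' : f k ≠ 0 := hk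
  refine ⟨h k / f k, fun j => ?_⟩
  rw [div_mul_eq_mul_div, eq_div_iff hk']
  linear_combination hp k j

/-- the equation of the hypersurface -/
theorem eval_par {d : ℕ} {F : MvPolynomial (Fin (n + 1)) ℂ} (hF : F.IsHomogeneous d)
    {f h : Fin (n + 1) → ℂ} (hf : f ≠ 0) (hp : ∀ j k, f j * h k = f k * h j)
    (h0 : eval f F = 0) : eval h F = 0 := by
  obtain ⟨μ, hμ⟩ := exists_smul hf hp
  have h1 : h = μ • f := funext fun j => hμ j
  rw [h1, smul_form hF, h0, mul_zero]

theorem par_trans {f h u : ℂ → Fin (n + 1) → ℂ}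
    (hfd : ∀ j, Differentiable ℂ fun z => f z j) (hhd : ∀ j, Differentiable ℂ fun z => h z j)
    (hud : ∀ j, Differentiable ℂ fun z => u z j) (h0 : ∃ z, h z ≠ 0)
    (hfh : ∀ z j k, f z j * h z k = f z k * h z j)
    (huh : ∀ z j k, u z j * h z k = u z k * h z j) (z : ℂ) (j k : Fin (n + 1)) :
    u z j * f z k = u z k * f z j := by
  obtain ⟨z1, hz1⟩ := h0
  obtain ⟨l, hl⟩ := Function.ne_iff.1 hz1
  have h1 := ent_mul' (F := fun z => u z j * f z k - u z k * f z j) (hhd l)
    (((hud j).mul (hfd k)).sub ((hud k).mul (hfd j))) ⟨z1, hl⟩ (fun w hw => by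
      have h2 : h w l * (h w l * (u w j * f w k - u w k * f w j)) = 0 := by
        have e1 := huh w j l
        have e2 := huh w k l
        have e3 := hfh w k l
        have e4 := hfh w j l
        linear_combination (h w l * f w k) * e1 - (h w l * f w j) * e2
          + (u w l * h w j) * e3 - (u w l * h w k) * e4
      exact (mul_eq_zero.1 ((mul_eq_zero.1 h2).resolve_left hw)).resolve_left hw) z
  exact sub_eq_zero.1 h1

/-- The coefficients are of complexity at most `(s, r, k, δ)`: on some nonempty open set they are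
polynomials of degree at most `k` in each of the variables `z`, `1 / q(z)` and the entries of
`y_1, ..., y_s` as in `IterSys`. -/
def CoefCx (s r k δ : ℕ) (T : Finset (Fin m → ℕ)) (c : Fin n → (Fin m → ℕ) → ℂ → ℂ) : Prop :=
  ∃ (U : Set ℂ) (q : Polynomial ℂ) (y : Fin s → Fin r → ℂ → ℂ), IsOpen U ∧ U.Nonempty ∧
    IterSys s r k δ U q y ∧ ∀ j, ∀ α ∈ T, ∃ κ : (Vx s r → Fin (k + 1)) → ℂ, ∀ z ∈ U,
      c j α z = pev κ (vec z (q.eval z)⁻¹ fun l a => y l a z)

theorem pev_one (ι : Type) [Fintype ι] [DecidableEq ι] (e : ℕ) :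
    ∃ c : (ι → Fin (e + 1)) → ℂ, ∀ v, pev c v = 1 := by
  obtain ⟨c, hc⟩ := poly_toPev (ι := ι) (e := e) 1 fun i => by
    rw [degreeOf_one]
    exact Nat.zero_le _
  exact ⟨c, fun v => by rw [hc, map_one]⟩

/-- **Independent gap functions: curves are constant.** -/
theorem const {d e s r k δ N : ℕ} (hN : ∀ (E : Set (MvPolynomial (Fin (n + 1)) ℂ))
    (Q : MvPolynomial (Fin (n + 1)) ℂ), DegLe d E Q → (∀ P, ¬ GmBdd (Ideal.span E) Q N P) →
      ∀ f, Curve (Ideal.span E) Q f → ¬ Bdd Set.univ Q s r k δ f)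
    {F : MvPolynomial (Fin (n + 1)) ℂ} (hFd : F.IsHomogeneous d)
    (hno : ∀ P, ¬ GmBdd (Ideal.span {F}) 1 e P) (hno' : ∀ P, ¬ GmBdd (Ideal.span {F}) 1 N P)
    {z₀ : ℂ} {T : Finset (Fin m → ℕ)} {c : Fin (n + 1) → (Fin m → ℕ) → ℂ → ℂ}
    {g : Fin m → ℂ → ℂ} (hD : GapData e z₀ T c g) (hg : Indep g) (hc : CoefCx s r k δ T c)
    (h0 : ∃ z, H T c g z ≠ 0) {f : ℂ → Fin (n + 1) → ℂ}
    (hfd : ∀ j, Differentiable ℂ fun z => f z j) (hf0 : ∀ z, f z ≠ 0)
    (hfF : ∀ z, eval (f z) F = 0) (hfh : ∀ z j k, f z j * H T c g z k = f z k * H T c g z j)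
    (z w : ℂ) : ∃ μ : ℂ, f z = μ • f w := by
  classical
  apply prop_of hf0
  intro hnc
  have hF : ∀ z, eval (H T c g z) F = 0 := fun z => eval_par hFd (hf0 z) (hfh z) (hfF z)
  have hdH : ∀ j, Differentiable ℂ fun z => H T c g z j := fun j =>
    diff_W (fun α hα => (hD.coef j α hα).1) (fun i => (hD.gap i).1)
  obtain ⟨z1, hz1⟩ := h0
  set x : Fin m → ℂ := fun i => g i z1 with hx
  obtain ⟨u, hu⟩ : ∃ u : ℂ → Fin (n + 1) → ℂ, ∀ z j, u z j = W T (fun α => c j α z) x :=
    ⟨_, fun _ _ => rfl⟩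
  have hud : ∀ j, Differentiable ℂ fun z => u z j := fun j => by
    simp only [hu]
    exact diff_W (v := fun i _ => x i) (fun α hα => (hD.coef j α hα).1)
      (fun i => differentiable_const _)
  have hu1 : u z1 ≠ 0 := by
    intro h1
    apply hz1
    funext j
    have h2 := congrFun h1 j
    rw [hu] at h2
    exact h2
  have hpar : ∀ z j k, u z j * f z k = u z k * f z j := by
    refine par_trans hfd hdH hud ⟨z1, hz1⟩ hfh fun z j k => ?_
    rw [hu, hu]
    exact indep_par hno hD hg hF z x j k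
  obtain ⟨U, q, y, hU, hUn, hs, hcy⟩ := hc
  have huc : Continuous u := continuous_pi fun j => (hud j).continuous
  have hne : (U ∩ {z | u z ≠ 0}).Nonempty := by
    by_contra h1
    rw [Set.not_nonempty_iff_eq_empty] at h1
    obtain ⟨z2, hz2⟩ := hUn
    apply hu1
    funext j
    refine ent_zero_of_near (z1 := z2) (hud j) ?_ z1
    filter_upwards [hU.mem_nhds hz2] with z hz
    by_contra h2
    have h3 : z ∈ U ∩ {z | u z ≠ 0} := ⟨hz, fun h4 => h2 (congrFun h4 j)⟩
    rw [h1] at h3
    exact h3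
  have hlam : ∀ z ∈ U ∩ {z | u z ≠ 0}, ∃ μ : ℂ, μ ≠ 0 ∧ ∀ j, μ * f z j = u z j := by
    rintro z ⟨-, hz⟩
    obtain ⟨μ, hμ⟩ := exists_smul (hf0 z) (h := u z) (fun j k => by
      have := hpar z j k
      linear_combination -this)
    refine ⟨μ, ?_, fun j => (hμ j).symm⟩
    rintro rfl
    apply hz
    funext j
    rw [hμ, zero_mul]
    rfl
  choose! lam hl1 hl2 using hlam
  obtain ⟨c1, hc1⟩ := pev_one (Vx s r) k
  refine hN {F} 1 (degLe_hyp hFd) hno' f ⟨hfd, hf0, fun z G hG _ => mem_hyp (hfF z) G hG,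
    fun z => by rw [map_one]; exact one_ne_zero, hnc⟩ ⟨U ∩ {z | u z ≠ 0}, q, y, lam,
      hU.inter (isOpen_ne.preimage huc), hne, Set.subset_univ _,
      ⟨hs.deg, fun z hz => hs.ne z hz.1, fun l a => ?_⟩, hl1, fun j => ?_, c1, fun z _ => by
        rw [map_one, hc1, mul_one]⟩
  · obtain ⟨c2, hc2⟩ := hs.ode l a
    exact ⟨c2, fun z hz => hc2 z hz.1⟩
  · choose! κ hκ using hcy j
    refine ⟨fun m' => ∑ α ∈ T, κ α m' * ∏ i, x i ^ α i, fun z hz => ?_⟩
    rw [hl2 z hz, hu]
    unfold W pev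
    simp only [Finset.sum_mul]
    rw [Finset.sum_comm]
    refine Finset.sum_congr rfl fun α hα => ?_
    rw [hκ α hα z hz.1]
    unfold pev
    rw [Finset.sum_mul]
    refine Finset.sum_congr rfl fun m' _ => ?_
    ring

end Run7.h302.GH
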