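import Pool.Agent.Run7.h302.GH.Core

/-!
# Replacement of gap functions by rational functions
-/

set_option autoImplicit false

namespace Run7.h302.GH

open MvPolynomial Set Filter Topology
open Pool.Agent.V1153.UG (GmBdd)
open Pool.Agent.TH600.LC (HadamardGaps DAlg tr tr_apply tr_diff tr_dAlg tr_gaps trP trP_eval trP_inj
  ent_mul ent_mul' ent_zero_of_near differentiable_eval)

variable {n m : ℕ}

/-- `g` is a family of entire functions with Hadamard gaps at `z₀`, the coefficients `c j α`,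
`α ∈ T`, are entire functions which satisfy algebraic differential equations, and the multi-indices
in `T` have degree at most `e`. -/
structure GapData (e : ℕ) (z₀ : ℂ) (T : Finset (Fin m → ℕ)) (c : Fin n → (Fin m → ℕ) → ℂ → ℂ)
    (g : Fin m → ℂ → ℂ) : Prop where
  deg : ∀ α ∈ T, ∑ i, α i ≤ e
  gap : ∀ i, HadamardGaps z₀ (g i)
  coef : ∀ j, ∀ α ∈ T, Differentiable ℂ (c j α) ∧ DAlg (c j α)

/-- the vector with the entries `∑ α ∈ T, c j α (z) g (z) ^ α` -/
noncomputable def H (T : Finset (Fin m → ℕ)) (c : Fin n → (Fin m → ℕ) → ℂ → ℂ)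
    (g : Fin m → ℂ → ℂ) (z : ℂ) (j : Fin n) : ℂ :=
  W T (fun α => c j α z) (fun i => g i z)

theorem core0 {e : ℕ} {F : MvPolynomial (Fin (n + 1)) ℂ}
    (hno : ∀ P, ¬ GmBdd (Ideal.span {F}) 1 e P) {T : Finset (Fin m → ℕ)}
    {c : Fin (n + 1) → (Fin m → ℕ) → ℂ → ℂ} {g : Fin m → ℂ → ℂ} (hD : GapData e 0 T c g)
    (hF : ∀ z, eval (H T c g z) F = 0) :
    ∃ (a : Polynomial ℂ) (I : Finset (Fin m)) (p : Fin m → Polynomial ℂ)
      (b : Fin m → Fin m → Polynomial ℂ), a ≠ 0 ∧
      (∀ z i, a.eval z * g i z = (p i).eval z + ∑ l ∈ I, (b i l).eval z * g l z) ∧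
      ∀ (z : ℂ) (x : Fin m → ℂ) (j k : Fin (n + 1)), a.eval z ≠ 0 →
        W T (fun α => c j α z)
          (fun i => ((p i).eval z + ∑ l ∈ I, (b i l).eval z * x l) / a.eval z) * H T c g z k =
        W T (fun α => c k α z)
          (fun i => ((p i).eval z + ∑ l ∈ I, (b i l).eval z * x l) / a.eval z) * H T c g z j := by
  obtain ⟨a, I, p, b, ha, hrel, hz⟩ := subst hD.gap hD.coef
  refine ⟨a, I, p, b, ha, hrel, fun z x j k haz => ?_⟩
  obtain ⟨A, hA⟩ : ∃ A : Fin m → ℂ,
      ∀ i, A i = ((p i).eval z + ∑ l ∈ I, (b i l).eval z * x l) / a.eval z := ⟨_, fun i => rfl⟩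
  have hA' : (fun i => ((p i).eval z + ∑ l ∈ I, (b i l).eval z * x l) / a.eval z) = A :=
    funext fun i => (hA i).symm
  rw [hA']
  have hline : ∀ t : ℂ, (fun i => A i + (g i z - A i) * t) = fun i =>
      ((p i).eval z + ∑ l ∈ I, (b i l).eval z * (x l + t * (g l z - x l))) / a.eval z := by
    intro t
    funext i
    have h1 : g i z = ((p i).eval z + ∑ l ∈ I, (b i l).eval z * g l z) / a.eval z := by
      rw [← hrel, mul_div_cancel_left₀ _ haz]
    have h2 : ∑ l ∈ I, (b i l).eval z * (x l + t * (g l z - x l)) =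
        ∑ l ∈ I, (b i l).eval z * x l + t * (∑ l ∈ I, (b i l).eval z * g l z -
          ∑ l ∈ I, (b i l).eval z * x l) := by
      rw [← Finset.sum_sub_distrib, Finset.mul_sum, ← Finset.sum_add_distrib]
      exact Finset.sum_congr rfl fun l _ => by ring
    rw [h1, hA, h2]
    field_simp
    ring
  have h3 := par_all hno hD.deg (fun j α => c j α z) A (fun i => g i z - A i) (fun t => by
    rw [hline]
    exact hz F hF z _ haz) 0 1 j k
  have e0 : (fun i => A i + (g i z - A i) * 0) = A := by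
    funext i
    ring
  have e1 : (fun i => A i + (g i z - A i) * 1) = fun i => g i z := by
    funext i
    ring
  rw [e0, e1] at h3
  exact h3

theorem core {e : ℕ} {F : MvPolynomial (Fin (n + 1)) ℂ}
    (hno : ∀ P, ¬ GmBdd (Ideal.span {F}) 1 e P) {z₀ : ℂ} {T : Finset (Fin m → ℕ)}
    {c : Fin (n + 1) → (Fin m → ℕ) → ℂ → ℂ} {g : Fin m → ℂ → ℂ} (hD : GapData e z₀ T c g)
    (hF : ∀ z, eval (H T c g z) F = 0) :
    ∃ (a : Polynomial ℂ) (I : Finset (Fin m)) (p : Fin m → Polynomial ℂ)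
      (b : Fin m → Fin m → Polynomial ℂ), a ≠ 0 ∧
      (∀ z i, a.eval z * g i z = (p i).eval z + ∑ l ∈ I, (b i l).eval z * g l z) ∧
      ∀ (z : ℂ) (x : Fin m → ℂ) (j k : Fin (n + 1)), a.eval z ≠ 0 →
        W T (fun α => c j α z)
          (fun i => ((p i).eval z + ∑ l ∈ I, (b i l).eval z * x l) / a.eval z) * H T c g z k =
        W T (fun α => c k α z)
          (fun i => ((p i).eval z + ∑ l ∈ I, (b i l).eval z * x l) / a.eval z) * H T c g z j := by
  have hD' : GapData e 0 T (fun j α => tr z₀ (c j α)) (fun i => tr z₀ (g i)) :=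
    ⟨hD.deg, fun i => tr_gaps (hD.gap i), fun j α hα =>
      ⟨tr_diff z₀ (hD.coef j α hα).1, tr_dAlg z₀ (hD.coef j α hα).2⟩⟩
  obtain ⟨a, I, p, b, ha, hrel, hz⟩ := core0 hno hD' (fun z => hF (z + z₀))
  refine ⟨trP (-z₀) a, I, fun i => trP (-z₀) (p i), fun i l => trP (-z₀) (b i l), fun h5 =>
    ha (trP_inj (-z₀) (h5.trans (map_zero _).symm)), fun z i => ?_, fun z x j k haz => ?_⟩
  · have h1 := hrel (z + -z₀) i
    simp only [tr_apply, neg_add_cancel_right] at h1
    simp only [trP_eval]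
    exact h1
  · rw [trP_eval] at haz
    have h1 := hz (z + -z₀) x j k haz
    simp only [H, tr_apply, neg_add_cancel_right] at h1
    simp only [H, trP_eval]
    exact h1

theorem diff_W {T : Finset (Fin m → ℕ)} {c : (Fin m → ℕ) → ℂ → ℂ} {v : Fin m → ℂ → ℂ}
    (hc : ∀ α ∈ T, Differentiable ℂ (c α)) (hv : ∀ i, Differentiable ℂ (v i)) :
    Differentiable ℂ fun z => W T (fun α => c α z) (fun i => v i z) := by
  unfold W
  refine Differentiable.fun_sum fun α hα => (hc α hα).mul ?_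
  exact Differentiable.fun_finsetProd fun i _ => (hv i).pow _

/-- a point where nothing vanishes -/
theorem exists_pt {a : Polynomial ℂ} (ha : a ≠ 0) {h : ℂ → Fin n → ℂ}
    (hd : ∀ j, Differentiable ℂ fun z => h z j) (h0 : ∃ z, h z ≠ 0) :
    ∃ z, a.eval z ≠ 0 ∧ h z ≠ 0 := by
  by_contra hcon
  push Not at hcon
  obtain ⟨z, hz⟩ := h0
  obtain ⟨j, hj⟩ := Function.ne_iff.1 hz
  refine hj (ent_mul' a.differentiable (hd j) ?_ (fun w hw => ?_) z)
  · by_contra h1
    push Not at h1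
    exact ha (Polynomial.funext fun w => by rw [h1, Polynomial.eval_zero])
  · rw [hcon w hw]
    rfl

/-- **The gap functions can be replaced by rational functions.** -/
theorem replace {e : ℕ} {F : MvPolynomial (Fin (n + 1)) ℂ}
    (hno : ∀ P, ¬ GmBdd (Ideal.span {F}) 1 e P) {z₀ : ℂ} {T : Finset (Fin m → ℕ)}
    {c : Fin (n + 1) → (Fin m → ℕ) → ℂ → ℂ} {g : Fin m → ℂ → ℂ} (hD : GapData e z₀ T c g)
    (hF : ∀ z, eval (H T c g z) F = 0) (h0 : ∃ z, H T c g z ≠ 0) :
    ∃ (a : Polynomial ℂ) (v : Fin m → Polynomial ℂ), a ≠ 0 ∧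
      (∃ z j, ∑ α ∈ T, c j α z * (a.eval z ^ (e - ∑ i, α i) * ∏ i, (v i).eval z ^ α i) ≠ 0) ∧
      ∀ z j k, (∑ α ∈ T, c j α z * (a.eval z ^ (e - ∑ i, α i) * ∏ i, (v i).eval z ^ α i)) *
          H T c g z k =
        (∑ α ∈ T, c k α z * (a.eval z ^ (e - ∑ i, α i) * ∏ i, (v i).eval z ^ α i)) *
          H T c g z j := by
  obtain ⟨a, I, p, b, ha, hrel, hz⟩ := core hno hD hF
  have hdH : ∀ j, Differentiable ℂ fun z => H T c g z j := fun j =>
    diff_W (fun α hα => (hD.coef j α hα).1) (fun i => (hD.gap i).1)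
  obtain ⟨z1, hz1, hh1⟩ := exists_pt ha hdH h0
  set v : Fin m → Polynomial ℂ := fun i => p i + ∑ l ∈ I, b i l * Polynomial.C (g l z1) with hv
  have hve : ∀ i z, (v i).eval z = (p i).eval z + ∑ l ∈ I, (b i l).eval z * g l z1 := by
    intro i z
    simp only [hv, Polynomial.eval_add, Polynomial.eval_finsetSum, Polynomial.eval_mul,
      Polynomial.eval_C]
  have key : ∀ z j, a.eval z ≠ 0 →
      ∑ α ∈ T, c j α z * (a.eval z ^ (e - ∑ i, α i) * ∏ i, (v i).eval z ^ α i) =
        a.eval z ^ e * W T (fun α => c j α z) (fun i =>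
          ((p i).eval z + ∑ l ∈ I, (b i l).eval z * g l z1) / a.eval z) := by
    intro z j haz
    unfold W
    rw [Finset.mul_sum]
    refine Finset.sum_congr rfl fun α hα => ?_
    have h1 : ∏ i, (((p i).eval z + ∑ l ∈ I, (b i l).eval z * g l z1) / a.eval z) ^ α i =
        (∏ i, (v i).eval z ^ α i) / a.eval z ^ ∑ i, α i := by
      rw [← Finset.prod_pow_eq_pow_sum, ← Finset.prod_div_distrib]
      refine Finset.prod_congr rfl fun i _ => ?_
      rw [div_pow, hve]
    have h2 : a.eval z ^ e = a.eval z ^ (e - ∑ i, α i) * a.eval z ^ ∑ i, α i := by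
      rw [← pow_add, Nat.sub_add_cancel (hD.deg α hα)]
    rw [h1, h2]
    have h3 : a.eval z ^ ∑ i, α i ≠ 0 := pow_ne_zero _ haz
    field_simp
  refine ⟨a, v, ha, ?_, fun z j k => ?_⟩
  · obtain ⟨j, hj⟩ := Function.ne_iff.1 hh1
    refine ⟨z1, j, ?_⟩
    rw [key z1 j hz1]
    refine mul_ne_zero (pow_ne_zero _ hz1) fun h1 => hj ?_
    have h2 : (fun i => ((p i).eval z1 + ∑ l ∈ I, (b i l).eval z1 * g l z1) / a.eval z1) =
        fun i => g i z1 := by
      funext i
      rw [← hrel, mul_div_cancel_left₀ _ hz1]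
    rw [h2] at h1
    exact h1
  · have hdu : ∀ j, Differentiable ℂ fun z =>
        ∑ α ∈ T, c j α z * (a.eval z ^ (e - ∑ i, α i) * ∏ i, (v i).eval z ^ α i) := by
      intro j
      refine Differentiable.fun_sum fun α hα => (hD.coef j α hα).1.mul ?_
      refine (a.differentiable.pow _).mul ?_
      exact Differentiable.fun_finsetProd fun i _ => (v i).differentiable.pow _
    have h1 := ent_mul' (F := fun z =>
      (∑ α ∈ T, c j α z * (a.eval z ^ (e - ∑ i, α i) * ∏ i, (v i).eval z ^ α i)) *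
          H T c g z k -
        (∑ α ∈ T, c k α z * (a.eval z ^ (e - ∑ i, α i) * ∏ i, (v i).eval z ^ α i)) *
          H T c g z j) a.differentiable (((hdu j).mul (hdH k)).sub ((hdu k).mul (hdH j)))
      ⟨z1, hz1⟩ (fun w hw => by
        rw [key w j hw, key w k hw]
        have h2 := hz w (fun l => g l z1) j k hw
        linear_combination a.eval w ^ e * h2) z
    exact sub_eq_zero.1 h1

end Run7.h302.GH
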